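import Pool.Agent.H86.RG.Targets2

/-! Row E6TRC of reg_modules: only the values near the point matter. -/

namespace Pool.Agent.H76.RG6

open MeasureTheory Metric Set Filter Topology Pool.Agent.H87.SN Pool.Agent.H86.RG
open scoped ContDiff RealInnerProductSpace ENNReal

theorem pf_TRC : T_TRC := by
  intro n k g x₀ R t ht htR hk x hx
  unfold cv
  refine integral_congr_ae (Filter.Eventually.of_forall fun y => ?_)
  by_cases hy : y ∈ ball x₀ (2 * R)
  · simp only [indicator_of_mem hy]
  · simp only [indicator_of_notMem hy, mul_zero]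
    have h1 : 1 ≤ ‖t⁻¹ • (x - y)‖ := by
      rw [norm_smul, norm_inv, Real.norm_of_nonneg ht.le, ← div_eq_inv_mul, le_div_iff₀ ht, one_mul]
      rw [mem_ball, not_lt] at hy
      rw [mem_ball] at hx
      have h2 : dist y x₀ ≤ dist y x + dist x x₀ := dist_triangle _ _ _
      rw [dist_comm y x, dist_eq_norm x y] at h2
      linarith
    unfold dil
    rw [hk _ h1, mul_zero, zero_mul]

end Pool.Agent.H76.RG6
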